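import Pool.Agent.W189.ML.Curve
import Pool.Agent.W524.RY.Han

/-! Sector bounds with arbitrary opening, and the small primes at complex points. -/

set_option autoImplicit false

namespace Pool.Agent.W524.RY

open MeasureTheory Filter Topology Set Classical
open Pool.Agent.W263.BSD Pool.Agent.W189.ML

section sector

variable {S : Set ℕ} {A : ℕ → ℝ}

/-- the correction function is bounded in every sector `‖w‖ ≤ R Re w` -/
theorem GG_sector' (E : EData S A) {R : ℝ} (hR : 0 ≤ R) : ∃ C : ℝ, ∀ w : ℂ, 0 < w.re →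
    ‖w‖ ≤ R * w.re → ‖GG S A w‖ ≤ C := by
  obtain ⟨C, σ₀, hσ₀, hC⟩ := log_sum_bound
  set δ := σ₀ / 2 with hδ
  have hδ0 : 0 < δ := by positivity
  set B1 : ℝ := ∑' p : ℕ, 60 * (p : ℝ) ^ (-(3 / 2) : ℝ) with hB1
  set B2 : ℝ := ∑' p : ℕ, (2 * (p : ℝ) ^ (-1 - δ) + 60 * (p : ℝ) ^ (-(3 / 2) : ℝ)) with hB2
  refine ⟨max (R * C + B1) B2, fun w hw hw5 => ?_⟩
  by_cases hc : δ < w.re
  · refine le_max_of_le_right ?_
    unfold GG
    exact tsum_of_norm_bounded (summable_bound hδ0).hasSum fun p => E.gterm_norm hδ0 p hc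
  · refine le_max_of_le_left ?_
    push Not at hc
    obtain ⟨hs, hle⟩ := hC w.re hw (by linarith)
    set f : ℕ → ℝ := fun p => ‖w‖ * (Real.log p * (p : ℝ) ^ (-(1 + w.re))) with hf
    have hs' : Summable (fun p : Nat.Primes => f p) := hs.mul_left ‖w‖
    have hf1 : Summable (({p : ℕ | p.Prime}).indicator f) :=
      (summable_subtype_iff_indicator (f := f) (s := {p : ℕ | p.Prime})).mp hs'
    have hf2 : ∑' p, ({p : ℕ | p.Prime}).indicator f p =
        ‖w‖ * ∑' p : Nat.Primes, Real.log p * (p : ℝ) ^ (-(1 + w.re)) := by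
      rw [← tsum_mul_left]
      exact (tsum_subtype {p : ℕ | p.Prime} f).symm
    have hg1 : Summable fun p : ℕ => 60 * (p : ℝ) ^ (-(3 / 2) : ℝ) :=
      (Real.summable_nat_rpow.mpr (by norm_num)).mul_left _
    have hb : ∀ p, ‖gterm S A p w‖ ≤ ({p : ℕ | p.Prime}).indicator f p +
        60 * (p : ℝ) ^ (-(3 / 2) : ℝ) := by
      intro p
      by_cases hp : p ∈ S
      · have h25 := E.big p hp
        have hp1 : (1 : ℝ) ≤ p := by exact_mod_cast (show 1 ≤ p by omega)
        have hp0 : (0 : ℝ) < p := by linarith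
        rw [indicator_of_mem (show p ∈ {p : ℕ | p.Prime} from E.prime p hp)]
        have h4 := E.gterm_main hp (w := w) hw.le
        rw [dl_cube (by omega)] at h4
        have hlog : 0 ≤ Real.log p := Real.log_nonneg hp1
        have h5 : ‖(mm A p * (xp p w - xp p w ^ 2) : ℂ)‖ ≤ f p := by
          have e1 : ‖1 - xp p w‖ ≤ ‖w‖ * Real.log p := by
            rw [xp_eq (by omega), norm_sub_rev]
            refine (norm_exp_sub_one_le_of_re ?_).trans (le_of_eq ?_)
            · have : (-(w * Real.log p)).re = -(w.re * Real.log p) := by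
                rw [Complex.neg_re, Complex.re_mul_ofReal]
              rw [this]
              have := mul_nonneg hw.le hlog
              linarith
            · rw [norm_neg, norm_mul, Complex.norm_real, Real.norm_eq_abs, abs_of_nonneg hlog]
          have e2 : (mm A p * (xp p w - xp p w ^ 2) : ℂ) = mm A p * (xp p w * (1 - xp p w)) := by ring
          rw [e2, norm_mul, norm_mul, Complex.norm_real, Real.norm_eq_abs, norm_xp (by omega)]
          have e3 : (p : ℝ) ^ (-(1 + w.re)) = 1 / p * (p : ℝ) ^ (-w.re) := by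
            rw [show (-(1 + w.re) : ℝ) = -1 + -w.re by ring, Real.rpow_add hp0, Real.rpow_neg_one,
              one_div]
          rw [hf]
          simp only
          rw [e3]
          calc |mm A p| * ((p : ℝ) ^ (-w.re) * ‖1 - xp p w‖) ≤
              (1 / p) * ((p : ℝ) ^ (-w.re) * (‖w‖ * Real.log p)) := by
                have := E.mm_le hp
                gcongr
            _ = _ := by ring
        have h8 : ‖gterm S A p w‖ ≤ ‖gterm S A p w - mm A p * (xp p w - xp p w ^ 2)‖ +
            ‖(mm A p * (xp p w - xp p w ^ 2) : ℂ)‖ := by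
          have := norm_add_le (gterm S A p w - mm A p * (xp p w - xp p w ^ 2))
            (mm A p * (xp p w - xp p w ^ 2))
          rwa [sub_add_cancel] at this
        linarith
      · unfold gterm
        rw [if_neg hp, norm_zero]
        refine add_nonneg ?_ (by positivity)
        refine indicator_nonneg (fun q hq => ?_) p
        have hq' : q.Prime := hq
        have hq1 : (1 : ℝ) ≤ q := by exact_mod_cast hq'.one_le
        have := Real.log_nonneg hq1
        rw [hf]
        positivity
    have h9 : ‖GG S A w‖ ≤ ∑' p, (({p : ℕ | p.Prime}).indicator f p +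
        60 * (p : ℝ) ^ (-(3 / 2) : ℝ)) := by
      unfold GG
      exact tsum_of_norm_bounded (hf1.add hg1).hasSum hb
    rw [hf1.tsum_add hg1, hf2] at h9
    have h10 : ‖w‖ * ∑' p : Nat.Primes, Real.log p * (p : ℝ) ^ (-(1 + w.re)) ≤ R * C := by
      have h11 : 0 ≤ ∑' p : Nat.Primes, Real.log p * (p : ℝ) ^ (-(1 + w.re)) := by
        refine tsum_nonneg fun p => ?_
        have hp1 : (1 : ℝ) ≤ p := by exact_mod_cast p.2.one_le
        have := Real.log_nonneg hp1
        positivity
      calc _ ≤ (R * w.re) * ∑' p : Nat.Primes, Real.log p * (p : ℝ) ^ (-(1 + w.re)) := by gcongr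
        _ = R * (w.re * ∑' p : Nat.Primes, Real.log p * (p : ℝ) ^ (-(1 + w.re))) := by ring
        _ ≤ R * C := mul_le_mul_of_nonneg_left hle hR
    linarith

/-- the series is bounded on `Re w ≥ 2` -/
theorem ser_le_two (E : EData S A) : ∃ C : ℝ, ∀ w : ℂ, 2 ≤ w.re →
    ‖ser (fun p : ℕ => Real.log p) (fun p => if p ∈ S then cc A p else 0) w‖ ≤ C :=
  ⟨_, fun _ hw => (sdata E).ser_le hw⟩

end sector

/-! ### small primes -/

variable {a b : ℤ}

/-- a curve has at most six affine points modulo `3` -/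
theorem pointCount_three : pointCount a b 3 ≤ 6 := by
  have h : ∀ x y : ZMod 3, Fintype.card {q : ZMod 3 × ZMod 3 // q.2 ^ 2 = q.1 ^ 3 + x * q.1 + y} ≤ 6 := by
    decide
  have h1 := h (a : ZMod 3) (b : ZMod 3)
  rw [← Nat.card_eq_fintype_card] at h1
  exact h1

theorem Ap_le {p : ℕ} (hg : GoodPrime a b p) : |Ap a b p| ≤ p := by
  have hp := hg.1
  unfold Ap
  have hp2 : p ≠ 2 := by
    intro h
    apply hg.2
    rw [h]
    exact dvd_mul_right _ _
  have h0 : (0 : ℝ) ≤ pointCount a b p := by positivity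
  by_cases h3 : p = 3
  · subst h3
    have h6 : (pointCount a b 3 : ℝ) ≤ 6 := by exact_mod_cast pointCount_three
    rw [abs_le]
    push_cast
    constructor <;> linarith
  · have h5 : 5 ≤ p := by
      have h2 := hp.two_le
      have h4 : p ≠ 4 := by
        intro h
        rw [h] at hp
        exact absurd hp (by norm_num)
      omega
    refine (hasse hg h5).trans ?_
    have hp5 : (5 : ℝ) ≤ p := by exact_mod_cast h5
    have h6 : √(p : ℝ) * √(p : ℝ) = p := Real.mul_self_sqrt (by linarith)
    have h7 : 2 ≤ √(p : ℝ) := by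
      rw [Real.le_sqrt (by norm_num) (by linarith)]
      linarith
    nlinarith

/-- the Euler factors have no zeros for `Re w ≥ 0` -/
theorem ef_ne_zero' {p : ℕ} (hg : GoodPrime a b p) {w : ℂ} (hw : 0 ≤ w.re) : ef a b p w ≠ 0 := by
  have hp := hg.1
  have hp2 : (2 : ℝ) ≤ p := by exact_mod_cast hp.two_le
  have hp0 : (0 : ℝ) < p := by linarith
  rw [ef_eq hp.one_le]
  set X := xp p w with hX
  have hXn : ‖X‖ ≤ 1 := norm_xp_le hp.one_le hw
  have hA := abs_le.1 (Ap_le hg)
  intro h0
  unfold fac tt at h0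
  have h1 : ((dl p : ℝ) : ℂ) ^ 2 = 1 / p := by
    rw [← Complex.ofReal_pow, dl_sq hp.one_le]
    push_cast; rfl
  rw [h1] at h0
  have hpc : (p : ℂ) ≠ 0 := by exact_mod_cast hp.ne_zero
  have h2 : (p : ℂ) - (Ap a b p : ℂ) * X + X ^ 2 = 0 := by
    have := congrArg (fun z => z * (p : ℂ)) h0
    simp only [zero_mul] at this
    rw [← this]
    push_cast
    field_simp
  have h3 : X.re ^ 2 + X.im ^ 2 ≤ 1 := by
    have h4 : ‖X‖ ^ 2 ≤ 1 := by
      have := norm_nonneg X
      nlinarith
    rw [← Complex.normSq_eq_norm_sq, Complex.normSq_apply] at h4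
    nlinarith
  have hre := congrArg Complex.re h2
  have him := congrArg Complex.im h2
  simp [sq] at hre him
  -- real part: p - A x + x² - y² = 0, imaginary part: -A y + 2 x y = 0
  have him' : X.im * (2 * X.re - Ap a b p) = 0 := by nlinarith
  rcases mul_eq_zero.1 him' with h | h
  · rw [h] at hre h3
    have h5 : X.re ^ 2 ≤ 1 := by nlinarith
    have h6 := abs_le.1 (abs_le_one_iff_mul_self_le_one.2 (by nlinarith : X.re * X.re ≤ 1))
    by_cases hx : 0 ≤ X.re
    · have h7 : Ap a b p * X.re ≤ p * X.re := mul_le_mul_of_nonneg_right hA.2 hx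
      have h8 : (p : ℝ) * X.re ≤ p * 1 := mul_le_mul_of_nonneg_left h6.2 hp0.le
      have h9 : X.re * X.re ≤ 0 := by linarith
      have h10 : X.re = 0 := by nlinarith
      rw [h10] at hre
      linarith
    · push Not at hx
      have h7 : Ap a b p * X.re ≤ (-p) * X.re := mul_le_mul_of_nonpos_right hA.1 hx.le
      have h8 : (-(p : ℝ)) * X.re ≤ p * 1 := by nlinarith
      have h9 : 0 < X.re * X.re := mul_pos_of_neg_of_neg hx hx
      linarith
  · have h5 : Ap a b p = 2 * X.re := by linarith
    rw [h5] at hre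
    nlinarith

theorem small_ne_zero {w : ℂ} (hw : 0 ≤ w.re) : small a b w ≠ 0 := by
  unfold small
  rw [Finset.prod_ne_zero_iff]
  intro p _
  split_ifs with h
  · exact ef_ne_zero' h hw
  · exact one_ne_zero

end Pool.Agent.W524.RY
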